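import Mathlib

/-! Star-forest modules with ballast: the abstract optimisation lemmas. -/

namespace Pool.Agent.H.MP_93e790_lc
open Finset

def dep {α β : Type} [DecidableEq α] [DecidableEq β] (s : Finset α) (t : α → Finset β) : Finset (α × β) :=
  s.biUnion fun a => (t a).image (Prod.mk a)

theorem mem_dep {α β : Type} [DecidableEq α] [DecidableEq β] {s : Finset α} {t : α → Finset β} (p : α × β) :
    p ∈ dep s t ↔ p.1 ∈ s ∧ p.2 ∈ t p.1 := by
  obtain ⟨a, b⟩ := p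
  simp only [dep, mem_biUnion, mem_image, Prod.mk.injEq]
  constructor
  · rintro ⟨_, h, _, h', rfl, rfl⟩; exact ⟨h, h'⟩
  · rintro ⟨h, h'⟩; exact ⟨_, h, _, h', rfl, rfl⟩

theorem sum_dep {α β : Type} [DecidableEq α] [DecidableEq β] (s : Finset α) (t : α → Finset β) (f : α × β → ℤ) :
    ∑ p ∈ dep s t, f p = ∑ a ∈ s, ∑ b ∈ t a, f (a, b) := sum_finset_product _ s t mem_dep

abbrev I := ℕ × ℕ
abbrev V := I × ℕ × ℕ × ℕ

structure Par where
  T : Finset I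
  W : ℕ
  lam : ℕ
  d : I → ℕ → ℕ
  b : I → ℕ
  be : I → ℕ
  q : I → I → Bool

namespace Par
variable (P : Par)

def VS : Finset V := dep P.T fun t => dep (range 3) fun k => dep (range (if k = 2 then 1 else P.W)) fun a =>
  range (if k = 0 then 1 else if k = 1 then P.d t a else P.b t)

theorem sum_VS (f : V → ℤ) : ∑ u ∈ P.VS, f u = ∑ t ∈ P.T, (∑ a ∈ range P.W, f (t, 0, a, 0) +
    ∑ a ∈ range P.W, ∑ l ∈ range (P.d t a), f (t, 1, a, l) + ∑ l ∈ range (P.b t), f (t, 2, 0, l)) := by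
  simp [VS, sum_dep, sum_range_succ]

def R (u v : V) : Prop := (u.1 = v.1 ∧ u.2.1 = 0 ∧ v.2.1 = 1 ∧ u.2.2.1 = v.2.2.1) ∨
  (u.1 = v.1 ∧ u.2.1 ≤ 1 ∧ v.2.1 = 2) ∨ (P.q u.1 v.1 = true ∧ u.2.1 ≤ 1 ∧ v.2.1 ≤ 1)

instance : DecidableRel P.R := fun _ _ => by unfold R; infer_instance

def qq (t t' : I) : ℤ := if P.q t t' = true then 1 else 0
def L (t : I) : ℤ := ∑ a ∈ range P.W, (P.d t a : ℤ)
def D (t : I) (x : ℕ) : ℤ := ∑ a ∈ range x, (P.d t a : ℤ)
def lf (σ : V → ℤ) (t : I) (a : ℕ) : ℤ := ∑ l ∈ range (P.d t a), σ (t, 1, a, l)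
def X (σ : V → ℤ) (t : I) : ℤ := ∑ a ∈ range P.W, σ (t, 0, a, 0) + ∑ a ∈ range P.W, P.lf σ t a
def Y (σ : V → ℤ) (t : I) : ℤ := ∑ l ∈ range (P.b t), σ (t, 2, 0, l)
def cost (σ : V → ℤ) : ℤ := ∑ u ∈ P.VS, ∑ v ∈ P.VS, if P.R u v then σ u * σ v else 0
def Psi (x : I → ℕ) : ℤ := ∑ t ∈ P.T, (P.D t (x t) - P.be t * x t) + ∑ t ∈ P.T, ∑ t' ∈ P.T, P.qq t t' * x t * x t'
def K0 : ℤ := ∑ t ∈ P.T, P.b t * P.L t + ∑ t ∈ P.T, ∑ t' ∈ P.T, P.qq t t' * P.L t * P.L t'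
def K1 : ℤ := ∑ t ∈ P.T, (P.b t + P.L t)

structure Ok : Prop where
  irr : ∀ t, P.q t t = false
  asy : ∀ t t', P.q t t' = true → P.q t' t = false
  mono : ∀ t ∈ P.T, Monotone (P.d t)
  pos : ∀ t a, 1 ≤ P.d t a
  lam : ∀ t ∈ P.T, P.L t + P.W ≤ P.lam
  bal : ∀ t ∈ P.T, (P.b t : ℤ) + P.be t + ∑ t' ∈ P.T, (P.qq t t' + P.qq t' t) * P.L t' = P.lam
  be : ∀ t, 2 * P.T.card * P.W ≤ P.be t

theorem size_eq (σ : V → ℤ) : ∑ u ∈ P.VS, σ u = ∑ t ∈ P.T, (P.X σ t + P.Y σ t) := by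
  simp [sum_VS, X, Y, lf]

theorem sumX (σ : V → ℤ) (F : I → ℤ) :
    ∑ u ∈ P.VS, (if u.2.1 ≤ 1 then F u.1 * σ u else 0) = ∑ t ∈ P.T, F t * P.X σ t := by
  simp [sum_VS, X, lf, mul_add, mul_sum]

theorem cost_eq (h : ∀ t, P.q t t = false) (σ : V → ℤ) :
    P.cost σ = ∑ t ∈ P.T, ∑ a ∈ range P.W, σ (t, 0, a, 0) * P.lf σ t a + ∑ t ∈ P.T, P.Y σ t * P.X σ t +
      ∑ t ∈ P.T, ∑ t' ∈ P.T, P.qq t t' * P.X σ t * P.X σ t' := by
  have e : ∀ u ∈ P.VS, ∑ v ∈ P.VS, (if P.R u v then σ u * σ v else 0) =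
      (if u.2.1 = 0 then σ u * P.lf σ u.1 u.2.2.1 else 0) + (if u.2.1 ≤ 1 then P.Y σ u.1 * σ u else 0) +
      (if u.2.1 ≤ 1 then (∑ t' ∈ P.T, P.qq u.1 t' * P.X σ t') * σ u else 0) := by
    rintro ⟨t, k, a, l⟩ hu
    have e1 : ∀ v ∈ P.VS, (if P.R (t, k, a, l) v then σ (t, k, a, l) * σ v else 0) =
        (if k = 0 then σ (t, k, a, l) * (if t = v.1 ∧ v.2.1 = 1 ∧ a = v.2.2.1 then σ v else 0) else 0) +
        (if k ≤ 1 then (if t = v.1 ∧ v.2.1 = 2 then σ v else 0) * σ (t, k, a, l) else 0) +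
        (if k ≤ 1 then (if v.2.1 ≤ 1 then P.qq t v.1 * σ v else 0) * σ (t, k, a, l) else 0) := by
      rintro ⟨t', k', a', l'⟩ -
      have := h t
      simp only [R, qq]
      grind
    rw [sum_congr rfl e1, sum_add_distrib, sum_add_distrib]
    simp only [VS, mem_dep, mem_range] at hu
    obtain ⟨ht, hk, ha, -⟩ := hu
    congr 1
    congr 1
    · split_ifs with h0
      · rw [← mul_sum, sum_VS]
        have ha' : a < P.W := by simpa [h0] using ha
        simp [ite_and, lf, ht, ha']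
      · simp
    · split_ifs with h0
      · rw [← sum_mul, sum_VS]
        simp [Y, ht]
      · simp
    · split_ifs with h0
      · rw [← sum_mul, sumX]
      · simp
  rw [cost, sum_congr rfl e, sum_add_distrib, sum_add_distrib, P.sumX σ (P.Y σ),
    P.sumX σ fun t => ∑ t' ∈ P.T, P.qq t t' * P.X σ t', sum_VS]
  simp only [sum_mul]
  congr 1
  · simp
  · exact sum_congr rfl fun t _ => sum_congr rfl fun t' _ => by ring

theorem alg (h : P.Ok) (z : I → ℤ) :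
    ∑ t ∈ P.T, P.b t * (P.L t + z t) + ∑ t ∈ P.T, ∑ t' ∈ P.T, P.qq t t' * (P.L t + z t) * (P.L t' + z t') -
      P.lam * ∑ t ∈ P.T, (P.L t + z t + P.b t) =
    P.K0 - P.lam * P.K1 - ∑ t ∈ P.T, P.be t * z t + ∑ t ∈ P.T, ∑ t' ∈ P.T, P.qq t t' * z t * z t' := by
  have e1 : ∑ t ∈ P.T, ∑ t' ∈ P.T, P.qq t t' * (P.L t + z t) * (P.L t' + z t') =
      ∑ t ∈ P.T, ∑ t' ∈ P.T, P.qq t t' * P.L t * P.L t' + ∑ t ∈ P.T, ∑ t' ∈ P.T, P.qq t t' * z t * z t' +
      (∑ t ∈ P.T, ∑ t' ∈ P.T, z t * (P.qq t t' * P.L t') + ∑ t ∈ P.T, ∑ t' ∈ P.T, z t' * (P.qq t t' * P.L t)) := by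
    simp only [← sum_add_distrib]
    exact sum_congr rfl fun t _ => sum_congr rfl fun t' _ => by ring
  have e2 : ∑ t ∈ P.T, ∑ t' ∈ P.T, z t * (P.qq t t' * P.L t') + ∑ t ∈ P.T, ∑ t' ∈ P.T, z t' * (P.qq t t' * P.L t) =
      ∑ t ∈ P.T, z t * (P.lam - P.b t - P.be t) := by
    rw [sum_comm (f := fun t t' => z t' * (P.qq t t' * P.L t)), ← sum_add_distrib]
    refine sum_congr rfl fun t ht => ?_
    rw [show (P.lam - P.b t - P.be t : ℤ) = ∑ t' ∈ P.T, (P.qq t t' + P.qq t' t) * P.L t' by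
      linarith [h.bal t ht], mul_sum, ← sum_add_distrib]
    exact sum_congr rfl fun t' _ => by ring
  rw [e1, e2, K0, K1]
  have : ∑ t ∈ P.T, (P.b t * (P.L t + z t) + z t * (P.lam - P.b t - P.be t) - P.lam * (P.L t + z t + P.b t)) =
      ∑ t ∈ P.T, (P.b t * P.L t - P.lam * (P.b t + P.L t) - P.be t * z t) := sum_congr rfl fun t _ => by ring
  simp only [sum_add_distrib, sum_sub_distrib, ← mul_sum] at this ⊢
  linarith

theorem sum_mono (d : ℕ → ℕ) (hd : Monotone d) (s : Finset ℕ) :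
    ∑ a ∈ range s.card, (d a : ℤ) ≤ ∑ a ∈ s, (d a : ℤ) := by
  induction s using Finset.induction_on_max with
  | empty => simp
  | insert a s ha ih =>
    have hn : a ∉ s := fun h => lt_irrefl _ (ha a h)
    rw [card_insert_of_notMem hn, sum_range_succ, sum_insert hn]
    have : s.card ≤ a := by
      simpa using card_le_card (show s ⊆ range a from fun x hx => mem_range.2 (ha x hx))
    have : (d s.card : ℤ) ≤ d a := by exact_mod_cast hd this
    linarith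

theorem D_add (h : P.Ok) (t : I) (x m : ℕ) : P.D t x + m ≤ P.D t (x + m) := by
  induction m with
  | zero => simp
  | succ m ih =>
    have : (1 : ℤ) ≤ P.d t (x + m) := by exact_mod_cast h.pos t _
    rw [← add_assoc, D, D, sum_range_succ]
    simp only [D] at ih
    push_cast
    linarith

def ind (S : Finset V) (u : V) : ℤ := if u ∈ S then 1 else 0

theorem ind_nonneg (S u) : 0 ≤ ind S u := by unfold ind; split_ifs <;> simp
theorem ind_le (S u) : ind S u ≤ 1 := by unfold ind; split_ifs <;> simp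

theorem sum_ind_le (S : Finset V) (n : ℕ) (f : ℕ → V) : ∑ l ∈ range n, ind S (f l) ≤ n := by
  simpa using sum_le_sum (s := range n) fun l _ => ind_le S (f l)

theorem star (h : P.Ok) (S : Finset V) (t : I) (ht : t ∈ P.T) :
    P.X (ind S) t - P.L t ≤ P.W ∧
      P.D t (P.X (ind S) t - P.L t).toNat ≤ ∑ a ∈ range P.W, ind S (t, 0, a, 0) * P.lf (ind S) t a := by
  have l1 : ∀ a, P.lf (ind S) t a ≤ P.d t a := fun a => sum_ind_le S _ _
  have l0 : ∀ a, 0 ≤ P.lf (ind S) t a := fun a => sum_nonneg fun _ _ => ind_nonneg _ _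
  have l2 : ∑ a ∈ range P.W, P.lf (ind S) t a ≤ P.L t := sum_le_sum fun a _ => l1 a
  refine ⟨by have := sum_ind_le S P.W fun a => (t, 0, a, 0); simp only [X]; linarith, ?_⟩
  set C := (range P.W).filter fun a => (t, 0, a, 0) ∈ S with hC
  have c1 : ∑ a ∈ range P.W, ind S (t, 0, a, 0) = C.card := by simp [ind, hC]
  have c2 : ∑ a ∈ C, (P.d t a : ℤ) - (P.L t - ∑ a ∈ range P.W, P.lf (ind S) t a) ≤
      ∑ a ∈ range P.W, ind S (t, 0, a, 0) * P.lf (ind S) t a := by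
    rw [hC, sum_filter, L, ← sum_sub_distrib, ← sum_sub_distrib]
    refine sum_le_sum fun a _ => ?_
    have := l1 a
    generalize P.lf (ind S) t a = y at *
    unfold ind
    split_ifs <;> linarith
  have c3 := sum_mono _ (h.mono t ht) C
  have c0 : 0 ≤ ∑ a ∈ range P.W, ind S (t, 0, a, 0) * P.lf (ind S) t a :=
    sum_nonneg fun a _ => mul_nonneg (ind_nonneg _ _) (l0 a)
  obtain ⟨m, hm⟩ := Int.eq_ofNat_of_zero_le (sub_nonneg.2 l2)
  have e : P.X (ind S) t - P.L t = C.card - m := by rw [X, c1]; linarith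
  rw [e]
  by_cases hx : m ≤ C.card
  · have := P.D_add h t (C.card - m) m
    rw [Nat.sub_add_cancel hx] at this
    rw [show ((C.card : ℤ) - m).toNat = C.card - m by omega]
    simp only [D] at this ⊢
    linarith
  · rw [show ((C.card : ℤ) - m).toNat = 0 by omega]
    simpa [D] using c0

theorem qq_nonneg (t t') : 0 ≤ P.qq t t' := by unfold qq; split_ifs <;> simp
theorem qq_le (t t') : P.qq t t' ≤ 1 := by unfold qq; split_ifs <;> simp

theorem lower (h : P.Ok) (S : Finset V) : ∃ x : I → ℕ,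
    P.K0 - P.lam * P.K1 + P.Psi x ≤ P.cost (ind S) - P.lam * ∑ u ∈ P.VS, ind S u := by
  set z : I → ℤ := fun t => P.X (ind S) t - P.L t with hz
  refine ⟨fun t => (z t).toNat, ?_⟩
  have a := P.alg h z
  have hX : ∀ t, P.L t + z t = P.X (ind S) t := fun t => by simp [hz]
  simp only [hX] at a
  rw [P.cost_eq h.irr, size_eq, Psi]
  have s1 : ∑ t ∈ P.T, P.D t (z t).toNat ≤ ∑ t ∈ P.T, ∑ a ∈ range P.W, ind S (t, 0, a, 0) * P.lf (ind S) t a :=
    sum_le_sum fun t ht => (P.star h S t ht).2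
  have s2 : ∑ t ∈ P.T, (P.b t * P.X (ind S) t - P.lam * P.b t) ≤
      ∑ t ∈ P.T, (P.Y (ind S) t * P.X (ind S) t - P.lam * P.Y (ind S) t) := sum_le_sum fun t ht => by
    have := (P.star h S t ht).1
    have := h.lam t ht
    have : P.Y (ind S) t ≤ P.b t := sum_ind_le S _ _
    nlinarith
  have s3 : ∑ t ∈ P.T, ∑ t' ∈ P.T, ((P.qq t t' * (z t).toNat * (z t').toNat : ℤ) - P.W * (-z t).toNat -
      P.W * (-z t').toNat) ≤ ∑ t ∈ P.T, ∑ t' ∈ P.T, P.qq t t' * z t * z t' :=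
    sum_le_sum fun t ht => sum_le_sum fun t' ht' => by
      have h1 : z t ≤ P.W := (P.star h S t ht).1
      have h2 : z t' ≤ P.W := (P.star h S t' ht').1
      have e1 := Int.toNat_sub_toNat_neg (z t)
      have e2 := Int.toNat_sub_toNat_neg (z t')
      have b1 : ((z t).toNat : ℤ) ≤ P.W := by omega
      have b2 : ((z t').toNat : ℤ) ≤ P.W := by omega
      generalize (z t).toNat = x, (-z t).toNat = m, (z t').toNat = x', (-z t').toNat = m' at *
      rw [← e1, ← e2]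
      have : (0 : ℤ) ≤ m := by positivity
      have : (0 : ℤ) ≤ m' := by positivity
      have : (0 : ℤ) ≤ P.W := by positivity
      unfold qq
      split_ifs <;> nlinarith [mul_nonneg ‹(0 : ℤ) ≤ m› ‹(0 : ℤ) ≤ m'›]
  have s4 : ∑ t ∈ P.T, (2 * P.T.card * P.W * (-z t).toNat - P.be t * (z t).toNat : ℤ) ≤
      ∑ t ∈ P.T, -(P.be t * z t) := sum_le_sum fun t _ => by
    have e1 := Int.toNat_sub_toNat_neg (z t)
    have : (2 * P.T.card * P.W : ℤ) ≤ P.be t := by exact_mod_cast h.be t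
    have : (0 : ℤ) ≤ (-z t).toNat := by positivity
    generalize (z t).toNat = x, (-z t).toNat = m at *
    rw [← e1]
    nlinarith
  simp only [sum_add_distrib, sum_sub_distrib, ← mul_sum, sum_const, nsmul_eq_mul, sum_neg_distrib] at a s2 s3 s4 ⊢
  linarith

def Sx (x : I → ℕ) : Finset V := P.VS.filter fun u => u.2.1 ≠ 0 ∨ u.2.2.1 < x u.1

theorem upper (h : P.Ok) (x : I → ℕ) (hx : ∀ t ∈ P.T, x t ≤ P.W) :
    ∑ u ∈ P.VS, ind (P.Sx x) u = P.K1 + ∑ t ∈ P.T, (x t : ℤ) ∧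
    P.K0 - P.lam * P.K1 + P.Psi x = P.cost (ind (P.Sx x)) - P.lam * ∑ u ∈ P.VS, ind (P.Sx x) u := by
  have l1 : ∀ t ∈ P.T, ∀ a ∈ range P.W, P.lf (ind (P.Sx x)) t a = P.d t a := fun t ht a ha => by
    rw [lf, sum_congr rfl (g := fun _ => 1) fun l hl => by
      simp only [mem_range] at ha hl; simp [ind, Sx, VS, mem_dep, ht, ha, hl]]
    simp
  have c1 : ∀ t ∈ P.T, ∀ g : ℕ → ℤ, ∑ a ∈ range P.W, ind (P.Sx x) (t, 0, a, 0) * g a = ∑ a ∈ range (x t), g a :=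
    fun t ht g => by
    rw [sum_congr rfl (g := fun a => if a < x t then g a else 0) fun a ha => by
      simp only [mem_range] at ha; simp [ind, Sx, VS, mem_dep, ht, ha], ← sum_filter]
    congr 1
    ext a
    have := hx t ht
    simp only [mem_filter, mem_range]
    omega
  have hX : ∀ t ∈ P.T, P.X (ind (P.Sx x)) t = P.L t + x t := fun t ht => by
    have := c1 t ht fun _ => 1
    simp only [mul_one, sum_const, card_range, nsmul_eq_mul] at this
    rw [X, this, sum_congr rfl (l1 t ht), L, add_comm]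
  have hY : ∀ t ∈ P.T, P.Y (ind (P.Sx x)) t = P.b t := fun t ht => by
    rw [Y, sum_congr rfl (g := fun _ => 1) fun l hl => by
      simp only [mem_range] at hl; simp [ind, Sx, VS, mem_dep, ht, hl]]
    simp
  have a := P.alg h fun t => x t
  have e1 : ∑ t ∈ P.T, (P.X (ind (P.Sx x)) t + P.Y (ind (P.Sx x)) t) = ∑ t ∈ P.T, (P.L t + x t + P.b t) :=
    sum_congr rfl fun t ht => by rw [hX t ht, hY t ht]
  have e2 : ∑ t ∈ P.T, ∑ a ∈ range P.W, ind (P.Sx x) (t, 0, a, 0) * P.lf (ind (P.Sx x)) t a =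
      ∑ t ∈ P.T, P.D t (x t) := sum_congr rfl fun t ht => by
    rw [sum_congr rfl fun a ha => by rw [l1 t ht a ha], c1 t ht, D]
  have e3 : ∑ t ∈ P.T, P.Y (ind (P.Sx x)) t * P.X (ind (P.Sx x)) t = ∑ t ∈ P.T, P.b t * (P.L t + x t) :=
    sum_congr rfl fun t ht => by rw [hX t ht, hY t ht]
  have e4 : ∑ t ∈ P.T, ∑ t' ∈ P.T, P.qq t t' * P.X (ind (P.Sx x)) t * P.X (ind (P.Sx x)) t' =
      ∑ t ∈ P.T, ∑ t' ∈ P.T, P.qq t t' * (P.L t + x t) * (P.L t' + x t') :=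
    sum_congr rfl fun t ht => sum_congr rfl fun t' ht' => by rw [hX t ht, hX t' ht']
  rw [P.cost_eq h.irr, size_eq, Psi, e1, e2, e3, e4]
  refine ⟨?_, ?_⟩
  · simp only [K1, sum_add_distrib]; ring
  · simp only [sum_sub_distrib] at a ⊢
    linarith

end Par
end Pool.Agent.H.MP_93e790_lc
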