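import Pool.Agent.Lib.lead.CXGraph

/-! Modular-width, fixed-parameter tractability, Clique and Densest Subgraph. -/

namespace Pool.Agent.H.MP_93e790_lc
open Pool.Agent.Lib.CX

/-- `Built G w S`: the subgraph of `G` induced on `S` is obtained from single vertices by disjoint unions, complete
joins and substitutions into graphs with at most `w` vertices -/
inductive Built {V : Type} (G : SimpleGraph V) (w : ℕ) : Set V → Prop
  | single (v : V) : Built G w {v}
  | union {A B : Set V} : Disjoint A B → Built G w A → Built G w B → (∀ a ∈ A, ∀ b ∈ B, ¬ G.Adj a b) →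
      Built G w (A ∪ B)
  | join {A B : Set V} : Disjoint A B → Built G w A → Built G w B → (∀ a ∈ A, ∀ b ∈ B, G.Adj a b) →
      Built G w (A ∪ B)
  | subst {m : ℕ} (H : SimpleGraph (Fin m)) (P : Fin m → Set V) : m ≤ w → (∀ i, Built G w (P i)) →
      (∀ i j, i ≠ j → Disjoint (P i) (P j)) → (∀ i j, i ≠ j → ∀ a ∈ P i, ∀ b ∈ P j, G.Adj a b ↔ H.Adj i j) →
      Built G w (⋃ i, P i)

/-- modular-width -/
noncomputable def mw {V : Type} (G : SimpleGraph V) : ℕ := sInf {w | Built G w Set.univ}

/-- `A` with parameter `κ` is decided in time `f (κ a) * poly (size a)` with `f` computable -/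
def FPT {α : Type} [Enc α] (A : α → Prop) (κ : α → ℕ) : Prop :=
  ∃ (p : Prog) (f : ℕ → ℕ) (q : Polynomial ℕ), Computable f ∧ ∀ a, ∃ (r : Bool) (n m : ℕ),
    n ≤ f (κ a) * q.eval (size a) ∧ Exec p (io (enc a)) (io (enc r)) n m ∧ (r = true ↔ A a)

/-- the graph has a clique with `k` vertices -/
def Clique (a : Gr × ℕ) : Prop := ∃ s : Finset (Fin a.1.n), a.1.G.IsNClique a.2 s

/-- input `(G, k, m)`: some set of at most `k` vertices induces at least `m` edges -/
def Dense (a : Gr × ℕ × ℕ) : Prop :=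
  ∃ s : Finset (Fin a.1.n), s.card ≤ a.2.1 ∧ a.2.2 ≤ (a.1.G.induce (s : Set (Fin a.1.n))).edgeSet.ncard

end Pool.Agent.H.MP_93e790_lc
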