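import Pool.Agent.H.MP_93e790_lc.A
import Pool.Agent.H.MP_93e790_lc.Defs
import Pool.Agent.Lib.lead.CXGraphRed

/-! Edge counts, modular-width of the construction, composition of an fpt algorithm with a reduction. -/

namespace Pool.Agent.H.MP_93e790_lc
open Finset Pool.Agent.Lib.CX

theorem FPT.red {α β : Type} [Enc α] [Enc β] {A : α → Prop} {B : β → Prop} {κ : α → ℕ} {μ : β → ℕ} {R : α → β}
    {g : ℕ → ℕ} (hR : PT R) (hg : Computable g) (e : ∀ a, A a ↔ B (R a)) (hk : ∀ a, μ (R a) ≤ g (κ a))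
    (h : FPT B μ) : FPT A κ := by
  obtain ⟨p, f, q, hf, h⟩ := h
  obtain ⟨q2, h2⟩ := PB.size hR
  obtain ⟨p1, q1, h1⟩ := hR
  let F : ℕ → ℕ := fun n => Nat.rec 1 (fun i s => s + f i) n
  have hF : Computable F :=
    Computable.nat_rec Computable.id (Computable.const 1)
      (Primrec.nat_add.to_comp.comp (Computable.snd.comp Computable.snd)
        (hf.comp (Computable.fst.comp Computable.snd))).to₂
  have F1 : ∀ n, 1 ≤ F n ∧ ∀ i < n, f i ≤ F n := fun n => by
    induction n with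
    | zero => simp [F]
    | succ n ih =>
      have : F (n + 1) = F n + f n := rfl
      refine ⟨by omega, fun i hi => ?_⟩
      rcases Nat.lt_succ_iff_lt_or_eq.1 hi with h | rfl
      · have := ih.2 i h; omega
      · omega
  refine ⟨.seq p1 p, fun k => F (g k + 1), q1 + q.comp q2 + 1, hF.comp (Computable.succ.comp hg), fun a => ?_⟩
  obtain ⟨n1, m1, b1, x1⟩ := h1 a
  obtain ⟨r, n, m, b, x, hr⟩ := h (R a)
  refine ⟨r, n1 + n + 1, max m1 m, ?_, .seq (x1.mono (le_max_left _ _)) (x.mono (le_max_right _ _)),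
    hr.trans (e a).symm⟩
  obtain ⟨c1, c2⟩ := F1 (g (κ a) + 1)
  have c3 := c2 _ (Nat.lt_succ_of_le (hk a))
  have c4 : q.eval (size (R a)) ≤ _ := eval_mono q (h2 a)
  have c5 := Nat.mul_le_mul c3 c4
  have c6 := Nat.mul_le_mul c1 b1
  simp only [Polynomial.eval_add, Polynomial.eval_comp, Polynomial.eval_one, mul_add]
  omega

variable {U : Type} {G : SimpleGraph U} {w : ℕ}

theorem Built.empty : Built G w ∅ := by
  simpa using Built.subst (G := G) (w := w) (⊥ : SimpleGraph (Fin 0)) (fun _ => ∅) (Nat.zero_le _) (fun i => i.elim0)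
    (fun i => i.elim0) (fun i => i.elim0)

theorem Built.sub {S : Set U} (h : S.Subsingleton) : Built G w S := by
  rcases h.eq_empty_or_singleton with rfl | ⟨x, rfl⟩
  exacts [.empty, .single x]

theorem Built.joins {ι : Type} (f : U → ι) {S : Set U} (hS : S.Finite) (h : ∀ i, Built G w (S ∩ {u | f u = i}))
    (ha : ∀ u ∈ S, ∀ v ∈ S, f u ≠ f v → G.Adj u v) : Built G w S := by
  classical
  have : ∀ s : Finset ι, Built G w (S ∩ {u | f u ∈ s}) := fun s => by
    induction s using Finset.induction_on with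
    | empty => simpa using Built.empty
    | insert i s hi ih =>
      have := Built.join (Set.disjoint_left.2 fun u h1 h2 => hi (by have := h1.2; have := h2.2; simp_all)) (h i) ih
        fun a h1 b h2 => ha a h1.1 b h2.1 (by have := h1.2; have := h2.2; intro; simp_all)
      convert this using 1
      ext u; simp only [mem_insert, Set.mem_inter_iff, Set.mem_ofPred_eq, Set.mem_union]; tauto
  convert this (hS.toFinset.image f) using 1
  ext u
  simp only [Set.mem_inter_iff, Set.mem_ofPred_eq, mem_image, Set.Finite.mem_toFinset]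
  exact ⟨fun h => ⟨h, u, h, rfl⟩, fun h => h.1⟩

theorem Built.clique {S : Set U} (hS : S.Finite) (ha : ∀ u ∈ S, ∀ v ∈ S, u ≠ v → G.Adj u v) : Built G w S :=
  Built.joins id hS (fun _ => .sub fun _ h1 _ h2 => h1.2.trans h2.2.symm) ha

theorem Built.substs {ι : Type} (T : Finset ι) (hT : T.card ≤ w) (f : U → ι) {S : Set U} (hf : ∀ u ∈ S, f u ∈ T)
    (h : ∀ i, Built G w (S ∩ {u | f u = i})) (H : ι → ι → Prop)
    (ha : ∀ u ∈ S, ∀ v ∈ S, f u ≠ f v → (G.Adj u v ↔ H (f u) (f v) ∨ H (f v) (f u))) : Built G w S := by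
  have := Built.subst (G := G) (SimpleGraph.fromRel fun i j => H (T.equivFin.symm i) (T.equivFin.symm j))
    (fun i => S ∩ {u | f u = T.equivFin.symm i}) hT (fun i => h _)
    (fun i j hij => Set.disjoint_left.2 fun u h1 h2 => hij (T.equivFin.symm.injective (Subtype.ext
      (h1.2.symm.trans h2.2)))) fun i j hij a h1 b h2 => by
      have e1 : f a = _ := h1.2
      have e2 : f b = _ := h2.2
      rw [ha a h1.1 b h2.1 fun e => hij (T.equivFin.symm.injective (Subtype.ext (e1.symm.trans (e.trans e2)))), e1, e2]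
      simp [hij]
  convert this using 1
  ext u
  simp only [Set.mem_iUnion, Set.mem_inter_iff, Set.mem_ofPred_eq]
  exact ⟨fun hu => ⟨T.equivFin ⟨_, hf u hu⟩, hu, by simp⟩, fun ⟨_, h, _⟩ => h⟩

theorem Built.comap {U' : Type} {G' : SimpleGraph U'} (φ : U' → U) (hφ : Function.Injective φ)
    (ha : ∀ u v, G'.Adj u v ↔ G.Adj (φ u) (φ v)) {S : Set U} (h : Built G w S) : Built G' w (φ ⁻¹' S) := by
  induction h with
  | single v => exact .sub fun a h1 b h2 => hφ (h1.trans h2.symm)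
  | union hd _ _ e i1 i2 => exact .union (hd.preimage φ) i1 i2 fun a h1 b h2 => by rw [ha]; exact e _ h1 _ h2
  | join hd _ _ e i1 i2 => exact .join (hd.preimage φ) i1 i2 fun a h1 b h2 => by rw [ha]; exact e _ h1 _ h2
  | subst H P hm _ hd e ih =>
    rw [Set.preimage_iUnion]
    exact .subst H _ hm ih (fun i j hij => (hd i j hij).preimage φ) fun i j hij a h1 b h2 => by
      rw [ha]; exact e i j hij _ h1 _ h2

open Classical in
theorem two_edges (G : SimpleGraph U) (s : Finset U) :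
    (2 * (G.induce (s : Set U)).edgeSet.ncard : ℤ) = ∑ u ∈ s, ∑ v ∈ s, if G.Adj u v then 1 else 0 := by
  have h := (G.induce (s : Set U)).sum_degrees_eq_twice_card_edges
  rw [← Set.ncard_coe_finset, SimpleGraph.coe_edgeFinset] at h
  have h' : ((∑ v, (G.induce (s : Set U)).degree v : ℕ) : ℤ) = _ := congrArg Nat.cast h
  push_cast at h'
  refine h'.symm.trans ?_
  rw [← sum_coe_sort s]
  refine sum_congr rfl fun u _ => ?_
  rw [← sum_coe_sort s, ← SimpleGraph.card_neighborFinset_eq_degree, SimpleGraph.neighborFinset_eq_filter]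
  simp

namespace Par
variable (P : Par)

def G0 : SimpleGraph V := SimpleGraph.fromRel fun u v => ¬ P.R u v ∧ ¬ P.R v u

theorem G0_adj (u v) : P.G0.Adj u v ↔ u ≠ v ∧ ¬ P.R u v ∧ ¬ P.R v u := by simp [G0]; tauto

theorem built (h : P.Ok) : Built P.G0 (2 * P.T.card) P.VS := by
  have fin : ∀ A, ((P.VS : Set V) ∩ A).Finite := fun A => P.VS.finite_toSet.inter_of_left A
  have irr := h.irr
  refine Built.substs (P.T ×ˢ (univ : Finset Bool)) (by simp [mul_comm]) (fun u => (u.1, decide (u.2.1 = 2)))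
    (fun u hu => by simp only [VS, mem_coe, mem_dep] at hu; exact mem_product.2 ⟨hu.1, mem_univ _⟩) ?_
    (fun i j => ¬ ((i.1 = j.1 ∧ i.2 ≠ j.2) ∨ ((P.q i.1 j.1 = true ∨ P.q j.1 i.1 = true) ∧ i.2 = false ∧ j.2 = false))) ?_
  · rintro ⟨t, _ | _⟩
    · refine Built.joins (fun u => u.2.2.1) (fin _) (fun a => ?_) ?_
      · have := Built.union (G := P.G0) (w := 2 * P.T.card)
          (A := ((P.VS : Set V) ∩ {u | u.1 = t ∧ u.2.1 = 0 ∧ u.2.2.1 = a}))
          (B := ((P.VS : Set V) ∩ {u | u.1 = t ∧ u.2.1 = 1 ∧ u.2.2.1 = a}))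
          (Set.disjoint_left.2 fun u h1 h2 => by have := h1.2.2.1; have := h2.2.2.1; omega)
          (.sub ?_) (.clique (fin _) ?_) ?_
        · convert this using 1
          ext ⟨t', k, a', l⟩
          simp only [VS, mem_coe, mem_dep, mem_range, Set.mem_inter_iff, Set.mem_ofPred_eq, Set.mem_union,
            Prod.mk.injEq, decide_eq_false_iff_not]
          grind
        · rintro ⟨t1, k1, a1, l1⟩ h1 ⟨t2, k2, a2, l2⟩ h2
          simp only [VS, mem_coe, mem_dep, mem_range, Set.mem_inter_iff, Set.mem_ofPred_eq] at h1 h2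
          grind
        · rintro ⟨t1, k1, a1, l1⟩ ⟨-, h1⟩ ⟨t2, k2, a2, l2⟩ ⟨-, h2⟩ hne
          simp only [Set.mem_ofPred_eq] at h1 h2
          simp only [G0_adj, R]
          grind
        · rintro ⟨t1, k1, a1, l1⟩ ⟨-, h1⟩ ⟨t2, k2, a2, l2⟩ ⟨-, h2⟩
          simp only [Set.mem_ofPred_eq] at h1 h2
          simp only [G0_adj, R]
          grind
      · rintro ⟨t1, k1, a1, l1⟩ ⟨-, h1⟩ ⟨t2, k2, a2, l2⟩ ⟨-, h2⟩ hne
        simp only [Set.mem_ofPred_eq, Prod.mk.injEq, decide_eq_false_iff_not] at h1 h2 hne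
        simp only [G0_adj, R]
        grind
    · refine .clique (fin _) ?_
      rintro ⟨t1, k1, a1, l1⟩ ⟨-, h1⟩ ⟨t2, k2, a2, l2⟩ ⟨-, h2⟩ hne
      simp only [Set.mem_ofPred_eq, Prod.mk.injEq, decide_eq_true_eq] at h1 h2
      simp only [G0_adj, R]
      grind
  · rintro ⟨t1, k1, a1, l1⟩ h1 ⟨t2, k2, a2, l2⟩ h2 hne
    simp only [VS, mem_coe, mem_dep, mem_range] at h1 h2
    obtain ⟨-, h1, -⟩ := h1
    obtain ⟨-, h2, -⟩ := h2
    simp only [G0_adj, R]
    grind

open Classical in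
noncomputable def pairs (S : Finset V) : ℤ := ∑ u ∈ S, ∑ v ∈ S, if P.G0.Adj u v then 1 else 0

theorem sum_ind {S : Finset V} (hS : S ⊆ P.VS) (f : V → ℤ) : ∑ u ∈ P.VS, ind S u * f u = ∑ u ∈ S, f u := by
  simp [ind, inter_eq_right.2 hS]

theorem pairs_eq (h : P.Ok) {S : Finset V} (hS : S ⊆ P.VS) :
    P.pairs S + 2 * P.cost (ind S) + S.card = S.card * S.card := by
  have e : P.cost (ind S) = ∑ u ∈ S, ∑ v ∈ S, if P.R u v then 1 else 0 := by
    rw [← P.sum_ind hS]
    refine sum_congr rfl fun u _ => ?_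
    rw [← P.sum_ind hS, mul_sum]
    exact sum_congr rfl fun v _ => by split_ifs <;> simp
  have e2 : P.cost (ind S) = ∑ u ∈ S, ∑ v ∈ S, if P.R v u then 1 else 0 := by rw [e, sum_comm]
  have e3 : (S.card : ℤ) = ∑ u ∈ S, ∑ v ∈ S, if u = v then 1 else 0 := by
    rw [sum_congr rfl (g := fun _ => 1) fun u hu => by simp [hu]]; simp
  have e4 : (S.card * S.card : ℤ) = ∑ u ∈ S, ∑ v ∈ S, 1 := by simp
  rw [e4, two_mul]
  nth_rw 1 [e2]
  rw [e, e3, pairs]
  simp only [← sum_add_distrib]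
  refine sum_congr rfl fun u _ => sum_congr rfl fun v _ => ?_
  have r1 : P.R u v → ¬ P.R v u := by
    have := h.irr u.1
    have := h.asy u.1 v.1
    simp only [R]
    grind
  have r2 : P.R u v → u ≠ v := fun a e => r1 a (by subst e; exact a)
  have r3 : P.R v u → u ≠ v := fun a e => by subst e; exact r1 a a
  simp only [G0_adj]
  by_cases a : P.R u v <;> by_cases b : P.R v u <;> by_cases c : u = v <;> simp_all

theorem pairs_mono {S S' : Finset V} (h : S ⊆ S') : P.pairs S ≤ P.pairs S' := by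
  refine (sum_le_sum fun u _ => sum_le_sum_of_subset_of_nonneg h fun _ _ _ => ?_).trans
    (sum_le_sum_of_subset_of_nonneg h fun _ _ _ => sum_nonneg fun _ _ => ?_) <;> split_ifs <;> simp

theorem up (h : P.Ok) (x : I → ℕ) (hx : ∀ t ∈ P.T, x t ≤ P.W) (K : ℕ) (hK : (K : ℤ) = P.K1 + ∑ t ∈ P.T, (x t : ℤ)) :
    ∃ S ⊆ P.VS, S.card = K ∧ P.pairs S = K * K - K - 2 * (P.K0 + P.lam * (K - P.K1) + P.Psi x) := by
  have hS : P.Sx x ⊆ P.VS := filter_subset _ _
  obtain ⟨h1, h2⟩ := P.upper h x hx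
  have h3 := P.sum_ind hS fun _ => 1
  simp only [mul_one, sum_const, nsmul_eq_mul] at h3
  have h4 : ((P.Sx x).card : ℤ) = K := by rw [hK, ← h1, h3]
  have := P.pairs_eq h hS
  rw [h3] at h2
  rw [h4] at this h2
  exact ⟨_, hS, by exact_mod_cast h4, by linarith⟩

theorem low (h : P.Ok) (K : ℕ) (hK : K ≤ P.VS.card) (S : Finset V) (hS : S ⊆ P.VS) (hc : S.card ≤ K) :
    ∃ x, P.pairs S ≤ K * K - K - 2 * (P.K0 + P.lam * (K - P.K1) + P.Psi x) := by
  obtain ⟨S', h1, h2, h4⟩ := exists_subsuperset_card_eq hS hc hK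
  obtain ⟨x, hx⟩ := P.lower h S'
  have h3 := P.sum_ind h2 fun _ => 1
  simp only [mul_one, sum_const, nsmul_eq_mul] at h3
  have := P.pairs_eq h h2
  have := P.pairs_mono h1
  rw [h3] at hx
  rw [h4] at *
  exact ⟨x, by linarith⟩

end Par
end Pool.Agent.H.MP_93e790_lc
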