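import Pool.Agent.H.MP_93e790_lc.B

/-! The parameters of the reduction from Clique and their computability. -/

namespace Pool.Agent.H.MP_93e790_lc
open Finset Pool.Agent.Lib.CX

abbrev Inp := Gr × List Unit

def sd (n u : ℕ) : ℕ := 3 * (u * (2 * n * n) + u * u)
def NN (c : Inp) : ℕ := 6 * (2 * c.1.n * c.1.n * c.1.n + c.1.n * c.1.n)
def WW (c : Inp) : ℕ := c.2.length * c.2.length * NN c
def rr (c : Inp) (t : I) : ℕ := if t.1 = t.2 then c.2.length - 1 else if t.1 < t.2 then 1 else 0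
def al (c : Inp) (t : I) (x : ℕ) : Bool :=
  if t.1 = t.2 then decide (∃ u ∈ List.range c.1.n, x = sd c.1.n u)
  else if t.1 < t.2 then decide (∃ e ∈ List.range c.1.n ×ˢ List.range c.1.n,
    c.1.adjB e.1 e.2 = true ∧ x + sd c.1.n e.1 + sd c.1.n e.2 = NN c) else true
def pe (c : Inp) (t : I) (x : ℕ) : ℕ := if al c t x = true then 0 else 1
def ga (c : Inp) : ℕ := 2 * (c.2.length * c.2.length) * WW c
def dd (c : Inp) (t : I) (x : ℕ) : ℕ := ga c + 1 + rr c t * x + pe c t (x + 1) + (1 - pe c t x)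
def bet (c : Inp) (t : I) : ℕ := ga c + 2 + rr c t * NN c
def dm (c : Inp) : ℕ := ga c + 3 + c.2.length * WW c
def lam (c : Inp) : ℕ :=
  ga c + 2 + c.2.length * NN c + 2 * (c.2.length * c.2.length) * (WW c * dm c) + WW c * dm c + WW c + dm c
def qb (t t' : I) : Bool :=
  decide (t.1 = t.2 ∧ ((t'.1 = t'.2 ∧ t.1 < t'.1) ∨ (t'.1 < t'.2 ∧ (t.1 = t'.1 ∨ t.1 = t'.2))))
def qn (t t' : I) : ℕ := if qb t t' = true then 1 else 0
def Tl (c : Inp) : List I := List.range c.2.length ×ˢ List.range c.2.length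
def LL (c : Inp) (t : I) : ℕ := ((List.range (WW c)).map (dd c t)).sum
def La (c : Inp) (t : I) : ℕ := ((Tl c).map fun t' => (qn t t' + qn t' t) * LL c t').sum
def bb (c : Inp) (t : I) : ℕ := lam c - (bet c t + La c t)
def KK (c : Inp) : ℕ := ((Tl c).map fun t => bb c t + LL c t).sum + WW c
def q0 (c : Inp) (t : I) : ℕ := ((Tl c).map fun t' => qn t t' * LL c t * LL c t').sum
def K0n (c : Inp) : ℕ := ((Tl c).map fun t => bb c t * LL c t).sum + ((Tl c).map (q0 c)).sum
def th (c : Inp) : ℕ := ((Tl c).map fun t => (if t.1 < t.2 then NN c * (NN c + 1) else 0) + 2 * pe c t 0).sum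
def mm (c : Inp) : ℕ := (KK c * KK c + th c - (KK c + 2 * (K0n c + lam c * WW c)) + 1) / 2
def vs (c : Inp) : List V :=
  (Tl c ×ˢ List.range 3 ×ˢ List.range (WW c + 1) ×ˢ List.range (lam c)).filter fun u =>
    decide (u.2.2.1 < (if u.2.1 = 2 then 1 else WW c) ∧
      u.2.2.2 < if u.2.1 = 0 then 1 else if u.2.1 = 1 then dd c u.1 u.2.2.1 else bb c u.1)
def Rb (u v : V) : Bool := decide ((u.1 = v.1 ∧ u.2.1 = 0 ∧ v.2.1 = 1 ∧ u.2.2.1 = v.2.2.1) ∨
  (u.1 = v.1 ∧ u.2.1 ≤ 1 ∧ v.2.1 = 2) ∨ (qb u.1 v.1 = true ∧ u.2.1 ≤ 1 ∧ v.2.1 ≤ 1))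
def es (c : Inp) : List (V × V) := (vs c ×ˢ vs c).filter fun e => decide (Rb e.1 e.2 = false ∧ Rb e.2 e.1 = false)
def red (c : Inp) : Gr × ℕ × ℕ := (mkGr (vs c) (es c), KK c, mm c)

section
attribute [local irreducible] sd NN WW rr al pe ga dd bet dm lam qb qn Tl LL La bb KK q0 K0n th mm vs Rb es red
variable {α : Type} [Enc α] {c : α → Inp} {t t' : α → I} {x y : α → ℕ}
@[fun_prop] theorem pt_sd (hx : PT x) (hy : PT y) : PT fun z => sd (x z) (y z) := by unfold sd; fun_prop
@[fun_prop] theorem pt_NN (hc : PT c) : PT fun z => NN (c z) := by unfold NN; fun_prop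
@[fun_prop] theorem pb_NN (hc : PT c) : PB fun z => NN (c z) := by unfold NN; fun_prop
@[fun_prop] theorem pt_WW (hc : PT c) : PT fun z => WW (c z) := by unfold WW; fun_prop
@[fun_prop] theorem pb_WW (hc : PT c) : PB fun z => WW (c z) := by unfold WW; fun_prop
@[fun_prop] theorem pt_rr (hc : PT c) (ht : PT t) : PT fun z => rr (c z) (t z) := by unfold rr; fun_prop
@[fun_prop] theorem pt_al (hc : PT c) (ht : PT t) (hx : PT x) : PT fun z => al (c z) (t z) (x z) := by
  unfold al; fun_prop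
@[fun_prop] theorem pt_pe (hc : PT c) (ht : PT t) (hx : PT x) : PT fun z => pe (c z) (t z) (x z) := by
  unfold pe; fun_prop
@[fun_prop] theorem pt_ga (hc : PT c) : PT fun z => ga (c z) := by unfold ga; fun_prop
@[fun_prop] theorem pb_ga (hc : PT c) : PB fun z => ga (c z) := by unfold ga; fun_prop
@[fun_prop] theorem pt_dd (hc : PT c) (ht : PT t) (hx : PT x) : PT fun z => dd (c z) (t z) (x z) := by
  unfold dd; fun_prop
@[fun_prop] theorem pt_bet (hc : PT c) (ht : PT t) : PT fun z => bet (c z) (t z) := by unfold bet; fun_prop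
@[fun_prop] theorem pt_dm (hc : PT c) : PT fun z => dm (c z) := by unfold dm; fun_prop
@[fun_prop] theorem pb_dm (hc : PT c) : PB fun z => dm (c z) := by unfold dm; fun_prop
@[fun_prop] theorem pt_lam (hc : PT c) : PT fun z => lam (c z) := by unfold lam; fun_prop
@[fun_prop] theorem pb_lam (hc : PT c) : PB fun z => lam (c z) := by unfold lam; fun_prop
@[fun_prop] theorem pt_qb (ht : PT t) (ht' : PT t') : PT fun z => qb (t z) (t' z) := by unfold qb; fun_prop
@[fun_prop] theorem pt_qn (ht : PT t) (ht' : PT t') : PT fun z => qn (t z) (t' z) := by unfold qn; fun_prop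
@[fun_prop] theorem pt_Tl (hc : PT c) : PT fun z => Tl (c z) := by unfold Tl; fun_prop
@[fun_prop] theorem pt_LL (hc : PT c) (ht : PT t) : PT fun z => LL (c z) (t z) := by unfold LL; fun_prop
@[fun_prop] theorem pt_La (hc : PT c) (ht : PT t) : PT fun z => La (c z) (t z) := by unfold La; fun_prop
@[fun_prop] theorem pt_bb (hc : PT c) (ht : PT t) : PT fun z => bb (c z) (t z) := by unfold bb; fun_prop
@[fun_prop] theorem pt_KK (hc : PT c) : PT fun z => KK (c z) := by unfold KK; fun_prop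
@[fun_prop] theorem pt_q0 (hc : PT c) (ht : PT t) : PT fun z => q0 (c z) (t z) := by unfold q0; fun_prop
@[fun_prop] theorem pt_K0n (hc : PT c) : PT fun z => K0n (c z) := by unfold K0n; fun_prop
@[fun_prop] theorem pt_th (hc : PT c) : PT fun z => th (c z) := by unfold th; fun_prop
@[fun_prop] theorem pt_mm (hc : PT c) : PT fun z => mm (c z) := by unfold mm; fun_prop
set_option synthInstance.maxSize 4000 in
@[fun_prop] theorem pt_vs (hc : PT c) : PT fun z => vs (c z) := by unfold vs; fun_prop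
set_option synthInstance.maxSize 4000 in
@[fun_prop] theorem pt_Rb {u v : α → V} (hu : PT u) (hv : PT v) : PT fun z => Rb (u z) (v z) := by unfold Rb; fun_prop
set_option synthInstance.maxSize 4000 in
@[fun_prop] theorem pt_es (hc : PT c) : PT fun z => es (c z) := by unfold es; fun_prop
set_option synthInstance.maxSize 4000 in
@[fun_prop] theorem pt_red (hc : PT c) : PT fun z => red (c z) := by unfold red; fun_prop
end

end Pool.Agent.H.MP_93e790_lc
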