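import Pool.Agent.H.MP_93e790_lc.C

/-! Correctness of the reduction. -/

namespace Pool.Agent.H.MP_93e790_lc
open Finset Pool.Agent.Lib.CX

def par (c : Inp) : Par := ⟨range c.2.length ×ˢ range c.2.length, WW c, lam c, dd c, bb c, bet c, qb⟩

variable (c : Inp)

theorem tl_sum (f : I → ℕ) : (((Tl c).map f).sum : ℕ) = ∑ t ∈ (par c).T, f t := by
  rw [← List.sum_toFinset f (l := Tl c) (List.nodup_range.product List.nodup_range)]
  congr 1
  ext ⟨i, j⟩
  simp [Tl, par, List.mem_product]

theorem LL_eq (t : I) : LL c t = ∑ a ∈ range (WW c), dd c t a := by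
  rw [LL, ← List.sum_toFinset _ List.nodup_range]
  congr 1
  ext; simp

theorem L_eq (t : I) : (par c).L t = LL c t := by simp [LL_eq, Par.L, par]
theorem qq_eq (t t' : I) : (par c).qq t t' = qn t t' := by simp [Par.qq, qn, par]
theorem card_T : (par c).T.card = c.2.length * c.2.length := by simp [par]
theorem pe_le (t x) : pe c t x ≤ 1 := by unfold pe; split_ifs <;> simp
theorem rr_le (t) (hk : 2 ≤ c.2.length) : rr c t ≤ c.2.length := by unfold rr; split_ifs <;> omega

theorem dd_le (hk : 2 ≤ c.2.length) (t) {a} (ha : a < WW c) : dd c t a ≤ dm c := by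
  have := pe_le c t (a + 1)
  have := Nat.mul_le_mul (rr_le c t hk) ha.le
  unfold dd dm
  omega

theorem LL_le (hk : 2 ≤ c.2.length) (t) : LL c t ≤ WW c * dm c := by
  rw [LL_eq]
  simpa using sum_le_card_nsmul (range (WW c)) (dd c t) (dm c) fun a ha => dd_le c hk t (mem_range.1 ha)

theorem al_mod {t : I} (ht : t.1 ≤ t.2) {x} (h : al c t x = true) : x % 3 = 0 := by
  unfold al at h
  split_ifs at h with h1 h2
  · simp only [decide_eq_true_eq, sd] at h; obtain ⟨u, -, h⟩ := h; omega
  · simp only [decide_eq_true_eq, sd, NN] at h; obtain ⟨u, -, -, h⟩ := h; omega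
  · omega

theorem ok (hk : 2 ≤ c.2.length) : (par c).Ok where
  irr t := by simp [par, qb]; omega
  asy t t' := by simp only [par, qb, decide_eq_true_eq, decide_eq_false_iff_not]; omega
  mono t _ := monotone_nat_of_le_succ fun a => by
    change dd c t a ≤ dd c t (a + 1)
    by_cases ht : t.1 ≤ t.2
    · have h1 : 1 ≤ rr c t := by unfold rr; split_ifs <;> omega
      have h2 := @al_mod c t ht a
      have h3 := @al_mod c t ht (a + 1 + 1)
      unfold dd pe
      rw [mul_add]
      split_ifs <;> simp_all <;> omega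
    · have : ∀ x, pe c t x = 0 := fun x => by simp [pe, al, show t.1 ≠ t.2 by omega, show ¬ t.1 < t.2 by omega]
      simp [dd, this, mul_add]
  pos t a := by change 1 ≤ dd c t a; unfold dd; omega
  lam t _ := by
    rw [L_eq]
    have := LL_le c hk t
    have : LL c t + WW c ≤ lam c := by unfold lam; omega
    exact_mod_cast this
  bal t _ := by
    have h1 : La c t ≤ 2 * (c.2.length * c.2.length) * (WW c * dm c) := by
      rw [La, tl_sum]
      have := sum_le_card_nsmul (par c).T (fun t' => (qn t t' + qn t' t) * LL c t') (2 * (WW c * dm c)) fun t' _ =>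
        Nat.mul_le_mul (by unfold qn; split_ifs <;> simp) (LL_le c hk t')
      rw [card_T, smul_eq_mul] at this
      linarith
    have h2 := Nat.mul_le_mul_right (NN c) (rr_le c t hk)
    have h3 : bb c t + bet c t + La c t = lam c := by unfold bb bet lam; omega
    rw [La, tl_sum] at h3
    simp only [L_eq, qq_eq]
    exact_mod_cast h3
  be t := by rw [card_T]; change _ ≤ bet c t; unfold bet ga; change 2 * _ * WW c ≤ _; omega

theorem KK_eq : (KK c : ℤ) = (par c).K1 + WW c := by
  simp only [KK, tl_sum, Par.K1, L_eq]; push_cast; rfl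

theorem K0_eq : (K0n c : ℤ) = (par c).K0 := by
  simp only [K0n, q0, tl_sum, Par.K0, L_eq, qq_eq]; push_cast; rfl

theorem mem_vs (hk : 2 ≤ c.2.length) (u : V) : u ∈ vs c ↔ u ∈ (par c).VS := by
  obtain ⟨⟨i, j⟩, k, a, l⟩ := u
  have h1 := @dd_le c hk (i, j) a
  have h2 : bb c (i, j) ≤ lam c := Nat.sub_le _ _
  have h3 : dm c + 2 ≤ lam c := by unfold lam; omega
  simp only [vs, Tl, Par.VS, par, mem_dep, List.mem_filter, List.mem_product, List.mem_range, mem_product, mem_range,
    decide_eq_true_eq]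
  grind

theorem D_eq (t : I) (x : ℕ) : 2 * ((par c).D t x - bet c t * x) =
    rr c t * ((x : ℤ) * (x - 1) - 2 * NN c * x) + 2 * pe c t x - 2 * pe c t 0 := by
  induction x with
  | zero => simp [Par.D]
  | succ x ih =>
    have : ((par c).d t x : ℤ) = ga c + 1 + rr c t * x + pe c t (x + 1) + (1 - pe c t x) := by
      change ((dd c t x : ℕ) : ℤ) = _
      rw [dd]; push_cast [pe_le c t x]; ring
    simp only [Par.D, sum_range_succ, bet] at ih ⊢
    push_cast at ih ⊢
    rw [this]
    linarith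

def PP : Finset I := (par c).T.filter fun t => t.1 < t.2

theorem split (F : I → ℤ) (hF : ∀ t : I, t.2 < t.1 → F t = 0) :
    ∑ t ∈ (par c).T, F t = ∑ i ∈ range c.2.length, F (i, i) + ∑ t ∈ PP c, F t := by
  rw [PP, sum_filter]
  simp only [par, sum_product]
  rw [← sum_add_distrib]
  refine sum_congr rfl fun i hi => ?_
  rw [← sum_ite_eq_of_mem (range c.2.length) i (fun j => F (i, j)) hi, ← sum_add_distrib]
  refine sum_congr rfl fun j _ => ?_
  have := hF (i, j)
  grind

theorem pair_sum (f : ℕ → ℤ) : ∑ t ∈ PP c, (f t.1 + f t.2) = ((c.2.length : ℤ) - 1) * ∑ i ∈ range c.2.length, f i := by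
  rw [PP, sum_filter]
  simp only [par, sum_product]
  have e : ∀ i j, (if i < j then f i + f j else 0) = (if i < j then f i else 0) + (if i < j then f j else 0) :=
    fun i j => by split_ifs <;> simp
  simp only [e, sum_add_distrib]
  rw [sum_comm (f := fun i j => if i < j then f j else 0), ← sum_add_distrib, mul_sum]
  refine sum_congr rfl fun i hi => ?_
  have : ∑ j ∈ range c.2.length, (f i - if i = j then f i else 0) = ((c.2.length : ℤ) - 1) * f i := by
    rw [sum_sub_distrib, sum_ite_eq_of_mem _ _ _ hi]; simp; ring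
  rw [← this, ← sum_add_distrib]
  refine sum_congr rfl fun j _ => ?_
  grind

theorem diag (F : I → ℤ) (hF : ∀ t : I, t.1 ≠ t.2 → F t = 0) :
    ∑ t ∈ (par c).T, F t = ∑ i ∈ range c.2.length, F (i, i) := by
  rw [split c F fun t h => hF t (by omega), sum_eq_zero (s := PP c) fun t h => hF t (mem_filter.1 h).2.ne, add_zero]

theorem cross (x : I → ℤ) : ∑ t ∈ (par c).T, ∑ t' ∈ (par c).T, (par c).qq t t' * x t * x t' =
    ∑ t ∈ PP c, (x (t.1, t.1) * x (t.2, t.2) + (x (t.1, t.1) + x (t.2, t.2)) * x t) := by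
  have e : ∀ s, ∑ t ∈ (par c).T, (par c).qq t s * x t * x s =
      ∑ i ∈ range c.2.length, (par c).qq (i, i) s * x (i, i) * x s := fun s =>
    diag c _ fun t ht => by simp [Par.qq, par, qb, ht]
  rw [sum_comm, split c _ fun t ht => sum_eq_zero fun t' _ => by
    simp [Par.qq, par, qb, show t.1 ≠ t.2 by omega, show ¬ t.1 < t.2 by omega], sum_add_distrib]
  simp only [e]
  congr 1
  · rw [sum_comm, PP, sum_filter]
    simp only [par, sum_product]
    exact sum_congr rfl fun i _ => sum_congr rfl fun j _ => by simp [Par.qq, qb]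
  · refine sum_congr rfl fun t ht => ?_
    simp only [PP, par, mem_filter, mem_product] at ht
    rw [add_mul, ← sum_ite_eq_of_mem _ _ (fun i => x (i, i) * x t) ht.1.1,
      ← sum_ite_eq_of_mem _ _ (fun i => x (i, i) * x t) ht.1.2, ← sum_add_distrib]
    refine sum_congr rfl fun i _ => ?_
    have := ht.2
    simp only [Par.qq, par, qb, decide_eq_true_eq]
    grind

def ww (x : I → ℕ) (t : I) : ℤ := x (t.1, t.1) + x (t.2, t.2) + x t - NN c

theorem Psi_eq (hk : 2 ≤ c.2.length) (x : I → ℕ) : 2 * (par c).Psi x + th c =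
    ∑ t ∈ PP c, ww c x t * (ww c x t - 1) + ∑ t ∈ (par c).T, 2 * (pe c t (x t) : ℤ) := by
  have e1 : (th c : ℤ) = ∑ t ∈ PP c, (NN c * (NN c + 1) : ℤ) + ∑ t ∈ (par c).T, 2 * (pe c t 0 : ℤ) := by
    rw [th, tl_sum, PP, sum_filter, ← sum_add_distrib]; push_cast; rfl
  let h : I → ℤ := fun t => (x t : ℤ) * (x t - 1) - 2 * NN c * x t
  have e2 : ∑ t ∈ (par c).T, rr c t * h t = ∑ t ∈ PP c, (h (t.1, t.1) + h (t.2, t.2) + h t) := by
    rw [split c _ fun t ht => by simp [rr, show t.1 ≠ t.2 by omega, show ¬ t.1 < t.2 by omega], sum_add_distrib,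
      pair_sum c fun i => h (i, i), mul_sum]
    congr 1
    · exact sum_congr rfl fun i _ => by simp [rr, show 1 ≤ c.2.length by omega]
    · exact sum_congr rfl fun t ht => by have := (mem_filter.1 ht).2; simp [rr, this, this.ne]
  have e3 : 2 * ∑ t ∈ (par c).T, ((par c).D t (x t) - (par c).be t * x t) =
      ∑ t ∈ (par c).T, (rr c t * h t + 2 * pe c t (x t) - 2 * pe c t 0) := by
    rw [mul_sum]; exact sum_congr rfl fun t _ => D_eq c t (x t)
  have e4 : ∑ t ∈ PP c, ww c x t * (ww c x t - 1) = ∑ t ∈ PP c, ((h (t.1, t.1) + h (t.2, t.2) + h t) +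
      2 * (x (t.1, t.1) * x (t.2, t.2) + (x (t.1, t.1) + x (t.2, t.2)) * x t) + NN c * (NN c + 1)) :=
    sum_congr rfl fun t _ => by simp only [ww, h]; ring
  rw [Par.Psi, cross c fun t => x t, mul_add, e3, e1, e4, sum_sub_distrib, sum_add_distrib, e2]
  simp only [sum_add_distrib, ← mul_sum]
  ring

theorem ww_nonneg (w : ℤ) : 0 ≤ w * (w - 1) := by
  rcases le_or_gt w 0 with h | h
  · exact mul_nonneg_of_nonpos_of_nonpos h (by omega)
  · exact mul_nonneg h.le (by omega)

theorem sidon {n u v a b : ℕ} (hu : u < n) (hv : v < n) (ha : a < n) (hb : b < n)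
    (h : sd n u + sd n v = sd n a + sd n b) : (u = a ∧ v = b) ∨ (u = b ∧ v = a) := by
  have h1 : u * u + v * v < 2 * n * n := by nlinarith
  have h2 : a * a + b * b < 2 * n * n := by nlinarith
  have h3 : (u * u + v * v) + (u + v) * (2 * n * n) = (a * a + b * b) + (a + b) * (2 * n * n) := by
    unfold sd at h; linarith
  have h4 := congrArg (· % (2 * n * n)) h3
  simp only [Nat.add_mul_mod_self_right, Nat.mod_eq_of_lt h1, Nat.mod_eq_of_lt h2] at h4
  have h5 : u + v = a + b := Nat.eq_of_mul_eq_mul_right (by omega : 0 < 2 * n * n) (by omega)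
  have h6 : ((u : ℤ) - a) * (u - b) = 0 := by
    have : (v : ℤ) = a + b - u := by omega
    have h4' : (u : ℤ) * u + v * v = a * a + b * b := by exact_mod_cast h4
    rw [this] at h4'
    linarith
  rcases mul_eq_zero.1 h6 with h | h <;> omega

theorem sound (hk : 2 ≤ c.2.length) (x : I → ℕ) (hx : 2 * (par c).Psi x + th c ≤ 0) :
    ∃ s : Finset (Fin c.1.n), c.1.G.IsNClique c.2.length s := by
  rw [Psi_eq c hk] at hx
  have a1 := sum_nonneg (s := PP c) fun t _ => ww_nonneg (ww c x t)
  have a2 := sum_nonneg (s := (par c).T) (f := fun t => 2 * (pe c t (x t) : ℤ)) fun t _ => by positivity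
  have b1 := (sum_eq_zero_iff_of_nonneg fun t _ => ww_nonneg (ww c x t)).1 (le_antisymm (by linarith) a1)
  have b2 := (sum_eq_zero_iff_of_nonneg (f := fun t => 2 * (pe c t (x t) : ℤ)) fun t _ => by positivity).1
    (le_antisymm (by linarith) a2)
  have b3 : ∀ t ∈ (par c).T, al c t (x t) = true := fun t ht => by
    have := b2 t ht
    unfold pe at this
    split_ifs at this with h
    · exact h
    · simp at this
  have : ∀ i : Fin c.2.length, ∃ u : Fin c.1.n, x (i, i) = sd c.1.n u := fun i => by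
    have := b3 (i, i) (by simp [par])
    simp only [al, if_true, decide_eq_true_eq, List.mem_range] at this
    obtain ⟨u, hu, e⟩ := this
    exact ⟨⟨u, hu⟩, e⟩
  choose u hu using this
  have adj : ∀ i j, i < j → c.1.G.Adj (u i) (u j) := fun i j hij => by
    have h1 := b3 (i, j) (by simp [par])
    have h2 := b1 (i, j) (by simp [par, PP, hij])
    have hij' : (i : ℕ) < j := hij
    simp only [al, hij', hij'.ne, if_true, if_false, decide_eq_true_eq] at h1
    obtain ⟨⟨a, b⟩, hab, h3, h4⟩ := h1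
    simp only [List.mem_product, List.mem_range] at hab
    simp only [ww, hu] at h2
    have h5 : sd c.1.n (u i) + sd c.1.n (u j) = sd c.1.n a + sd c.1.n b := by
      simp only [sd] at h2 h4 ⊢
      rcases mul_eq_zero.1 h2 with h | h <;> omega
    have h6 := (Gr.adjB_iff c.1 ⟨a, hab.1⟩ ⟨b, hab.2⟩).1 h3
    rcases sidon (u i).2 (u j).2 hab.1 hab.2 h5 with ⟨e1, e2⟩ | ⟨e1, e2⟩
    · rwa [show u i = ⟨a, hab.1⟩ from Fin.ext e1, show u j = ⟨b, hab.2⟩ from Fin.ext e2]
    · rw [show u i = ⟨b, hab.2⟩ from Fin.ext e1, show u j = ⟨a, hab.1⟩ from Fin.ext e2]; exact h6.symm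
  have adj' : ∀ i j, i ≠ j → c.1.G.Adj (u i) (u j) := fun i j hij => by
    rcases lt_or_gt_of_ne hij with h | h
    exacts [adj i j h, (adj j i h).symm]
  refine ⟨univ.image u, ?_, ?_⟩
  · simp only [coe_image, coe_univ, Set.image_univ]
    rintro _ ⟨i, rfl⟩ _ ⟨j, rfl⟩ h
    exact adj' i j fun e => h (by rw [e])
  · rw [card_image_of_injective _ fun i j e => by_contra fun h => (adj' i j h).ne e]; simp

theorem sd_le {u : ℕ} (hu : u < c.1.n) : 2 * sd c.1.n u ≤ NN c := by
  unfold sd NN
  have := Nat.mul_le_mul hu.le hu.le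
  have := Nat.mul_le_mul_right (2 * c.1.n * c.1.n) hu.le
  nlinarith

theorem complete (hk : 2 ≤ c.2.length) (s : Finset (Fin c.1.n)) (hs : c.1.G.IsNClique c.2.length s) :
    ∃ x : I → ℕ, (∀ t ∈ (par c).T, x t ≤ WW c) ∧ ∑ t ∈ (par c).T, (x t : ℤ) = WW c ∧
      2 * (par c).Psi x + th c = 0 := by
  let e := s.equivFinOfCardEq hs.2
  let u : ℕ → Fin c.1.n := fun i => e.symm ⟨i % c.2.length, Nat.mod_lt _ (by omega)⟩
  have adj : ∀ i j, i < j → j < c.2.length → c.1.G.Adj (u i) (u j) := fun i j h1 h2 =>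
    hs.1 (e.symm _).2 (e.symm _).2 fun h => by
      have := e.symm.injective (Subtype.ext h)
      simp only [Fin.mk.injEq, Nat.mod_eq_of_lt h2, Nat.mod_eq_of_lt (h1.trans h2)] at this
      omega
  let y : I → ℕ := fun t => if t.1 = t.2 then sd c.1.n (u t.1) else if t.1 < t.2 then
    NN c - (sd c.1.n (u t.1) + sd c.1.n (u t.2)) else 0
  have hy : ∀ t, y t ≤ NN c := fun t => by have := sd_le c (u t.1).2; simp only [y]; split_ifs <;> omega
  have hY : ∑ t ∈ (par c).T, y t ≤ WW c := by
    simpa [card_T, WW] using sum_le_card_nsmul (par c).T y (NN c) fun t _ => hy t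
  have h10 : ((1, 0) : I) ∈ (par c).T := by simp [par]; omega
  refine ⟨fun t => y t + if t = (1, 0) then WW c - ∑ t ∈ (par c).T, y t else 0, fun t ht => ?_, ?_, ?_⟩
  · have := single_le_sum (f := y) (fun _ _ => Nat.zero_le _) ht
    beta_reduce
    split_ifs <;> omega
  · rw [← Nat.cast_sum, sum_add_distrib, sum_ite_eq_of_mem' _ _ _ h10]
    congr 1; omega
  · rw [Psi_eq c hk, sum_eq_zero, sum_eq_zero, add_zero]
    · rintro ⟨i, j⟩ ht
      simp only [par, mem_product, mem_range] at ht
      have := sd_le c (u i).2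
      have := sd_le c (u j).2
      simp only [pe, mul_eq_zero, Nat.cast_eq_zero, ite_eq_left_iff]
      refine .inr fun h => absurd ?_ h
      rcases lt_trichotomy i j with h2 | rfl | h2
      · have : ((i, j) : I) ≠ (1, 0) := by simp; omega
        simp only [al, y, this, h2, h2.ne, if_true, if_false, decide_eq_true_eq]
        exact ⟨((u i).1, (u j).1), by simp [List.mem_product], (Gr.adjB_iff _ _ _).2 (adj i j h2 ht.2),
          by simp only; omega⟩
      · have : ((i, i) : I) ≠ (1, 0) := by simp; omega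
        simp only [al, y, this, if_true, if_false, decide_eq_true_eq, List.mem_range]
        exact ⟨u i, (u i).2, by simp⟩
      · simp [al, h2.ne', h2.not_gt]
    · rintro ⟨i, j⟩ ht
      simp only [PP, mem_filter] at ht
      have := sd_le c (u i).2
      have := sd_le c (u j).2
      have h1 : ((i, j) : I) ≠ (1, 0) := by have := ht.2; simp; omega
      have h2 : ∀ i, ((i, i) : I) ≠ (1, 0) := fun i => by simp; omega
      simp only [ww, y, h1, h2, ht.2, ht.2.ne, if_true, if_false]
      exact mul_eq_zero_of_left (by omega) _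

theorem adj_iff (u v : Fin (mkGr (vs c) (es c)).n) : (mkGr (vs c) (es c)).G.Adj u v ↔
    (par c).G0.Adj (mkGrEquiv (vs c) (es c) u).1 (mkGrEquiv (vs c) (es c) v).1 := by
  rw [← (mkGrIso (vs c) (es c)).map_rel_iff, Par.G0_adj]
  have hu : (mkGrEquiv (vs c) (es c) u).1 ∈ vs c := (mkGrEquiv (vs c) (es c) u).2
  have hv : (mkGrEquiv (vs c) (es c) v).1 ∈ vs c := (mkGrEquiv (vs c) (es c) v).2
  have e : ∀ u v, Rb u v = false ↔ ¬ (par c).R u v := fun u v => by simp only [Rb, decide_eq_false_iff_not]; rfl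
  change (SimpleGraph.fromRel fun a b => (a, b) ∈ es c).Adj (mkGrEquiv (vs c) (es c) u).1
    (mkGrEquiv (vs c) (es c) v).1 ↔ _
  simp only [SimpleGraph.fromRel_adj, es, List.mem_filter, List.mem_product, decide_eq_true_eq, e]
  tauto

theorem mw_red (hk : 2 ≤ c.2.length) : mw (red c).1.G ≤ 2 * (c.2.length * c.2.length) := by
  have := ((par c).built (ok c hk)).comap (G' := (mkGr (vs c) (es c)).G) (fun u => (mkGrEquiv (vs c) (es c) u).1)
    (fun u v h => (mkGrEquiv (vs c) (es c)).injective (Subtype.ext h)) (adj_iff c)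
  rw [card_T] at this
  have e : (fun u => (mkGrEquiv (vs c) (es c) u).1) ⁻¹' ((par c).VS : Set V) = Set.univ :=
    Set.eq_univ_of_forall fun u => mem_coe.2 ((mem_vs c hk _).1 (mkGrEquiv (vs c) (es c) u).2)
  rw [e] at this
  exact Nat.sInf_le this

theorem dense_iff (hk : 2 ≤ c.2.length) : Dense (red c) ↔
    ∃ S ⊆ (par c).VS, S.card ≤ KK c ∧ (2 * mm c : ℤ) ≤ (par c).pairs S := by
  let φ : Fin (mkGr (vs c) (es c)).n → V := fun u => (mkGrEquiv (vs c) (es c) u).1
  have hφ : Function.Injective φ := fun u v h => (mkGrEquiv (vs c) (es c)).injective (Subtype.ext h)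
  have key : ∀ s : Finset (Fin (mkGr (vs c) (es c)).n),
      (2 * ((mkGr (vs c) (es c)).G.induce (s : Set _)).edgeSet.ncard : ℤ) = (par c).pairs (s.image φ) := fun s => by
    rw [two_edges, Par.pairs, sum_image fun _ _ _ _ h => hφ h]
    refine sum_congr rfl fun u _ => ?_
    rw [sum_image fun _ _ _ _ h => hφ h]
    exact sum_congr rfl fun v _ => by rw [adj_iff c]
  change (∃ s : Finset (Fin (mkGr (vs c) (es c)).n), s.card ≤ KK c ∧
    mm c ≤ ((mkGr (vs c) (es c)).G.induce (s : Set _)).edgeSet.ncard) ↔ _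
  constructor
  · rintro ⟨s, h1, h2⟩
    refine ⟨s.image φ, fun x hx => ?_, card_image_le.trans h1, ?_⟩
    · obtain ⟨u, -, rfl⟩ := mem_image.1 hx
      exact (mem_vs c hk _).1 (mkGrEquiv (vs c) (es c) u).2
    · rw [← key]
      omega
  · rintro ⟨S, h0, h1, h2⟩
    have e : (univ.filter fun u => φ u ∈ S).image φ = S := by
      ext x
      simp only [mem_image, mem_filter, mem_univ, true_and]
      exact ⟨fun ⟨u, h, e⟩ => e ▸ h, fun h => ⟨(mkGrEquiv (vs c) (es c)).symm ⟨x, (mem_vs c hk x).2 (h0 h)⟩,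
        by simpa [φ] using h, by simp [φ]⟩⟩
    refine ⟨univ.filter fun u => φ u ∈ S, ?_, ?_⟩
    · rw [← e, card_image_of_injective _ hφ] at h1; exact h1
    · have := key (univ.filter fun u => φ u ∈ S)
      rw [e] at this
      omega

theorem pairs_even (S : Finset V) : ∃ m : ℕ, (par c).pairs S = 2 * m := ⟨_, (two_edges _ S).symm⟩

theorem red_iff (hk : 2 ≤ c.2.length) : Clique (c.1, c.2.length) ↔ Dense (red c) := by
  have hok := ok c hk
  have e1 := KK_eq c
  have e2 := K0_eq c
  have e3 : ((par c).lam : ℤ) * (KK c - (par c).K1) = (lam c * WW c : ℕ) := by rw [e1]; simp [par]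
  have e4 : (KK c * KK c : ℤ) = (KK c * KK c : ℕ) := by simp
  rw [dense_iff c hk]
  constructor
  · rintro ⟨s, hs⟩
    obtain ⟨x, h1, h2, h3⟩ := complete c hk s hs
    obtain ⟨S, h4, h5, h6⟩ := (par c).up hok x h1 (KK c) (by rw [h2, e1])
    obtain ⟨m, hm⟩ := pairs_even c S
    refine ⟨S, h4, h5.le, ?_⟩
    rw [e3, e4, ← e2] at h6
    unfold mm
    omega
  · rintro ⟨S, h0, h1, h2⟩
    have h10 : ((1, 0) : I) ∈ (par c).T := by simp [par]; omega
    obtain ⟨S', h4, h5, -⟩ := (par c).up hok (fun t => if t = (1, 0) then WW c else 0)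
      (fun t _ => by split_ifs <;> simp [par]) (KK c) (by rw [e1]; simp [h10])
    obtain ⟨x, hx⟩ := (par c).low hok (KK c) (h5 ▸ card_le_card h4) S h0 h1
    refine sound c hk x ?_
    rw [e3, e4, ← e2] at hx
    unfold mm at h2
    omega

def RR (a : Gr × ℕ) : Gr × ℕ × ℕ :=
  if 2 ≤ a.2 ∧ a.2 ≤ a.1.n then red (a.1, a.1.1.take a.2) else (([], []), 0, if a.2 ≤ a.1.n then 0 else 1)

attribute [local irreducible] red in
theorem pt_RR : PT RR := by unfold RR; fun_prop

theorem RR_spec (a : Gr × ℕ) : (Clique a ↔ Dense (RR a)) ∧ mw (RR a).1.G ≤ 2 * (a.2 * a.2) := by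
  generalize hb : RR a = b
  unfold RR at hb
  split_ifs at hb with h h' <;> subst hb
  · have e : (a.1.1.take a.2).length = a.2 := by simp [h.2]
    have h1 := red_iff (a.1, a.1.1.take a.2) (by simp only [e]; exact h.1)
    have h2 := mw_red (a.1, a.1.1.take a.2) (by simp only [e]; exact h.1)
    simp only [e] at h1 h2
    exact ⟨h1, h2⟩
  · refine ⟨iff_of_true ?_ ⟨∅, le_rfl, Nat.zero_le _⟩, Nat.sInf_le (Built.sub fun u => u.elim0)⟩
    rcases (by omega : a.2 = 0 ∨ a.2 = 1) with e | e
    · exact ⟨∅, by simp [e]⟩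
    · exact ⟨{⟨0, by omega⟩}, by simp [e]⟩
  · refine ⟨iff_of_false ?_ ?_, Nat.sInf_le (Built.sub fun u => u.elim0)⟩
    · rintro ⟨s, hs⟩
      have := card_le_univ s
      rw [hs.2] at this
      simp at this
      omega
    · rintro ⟨s, -, hs⟩
      obtain ⟨e, -⟩ := Set.nonempty_of_ncard_ne_zero (Nat.one_le_iff_ne_zero.1 hs)
      induction e using Sym2.ind with
      | _ u v => exact u.1.elim0

end Pool.Agent.H.MP_93e790_lc
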